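import Pool.Agent.BB.P.FINAL

/-!
# Boundaries of unbounded parabolic basins of entire functions

`f` is entire, `f^[k] ζ = ζ`, `(f^[k])' ζ = 1` (so `k` is a suitable multiple of the period) and
`f^[k]` is not the identity. `PBasin f k ζ` is the basin of the cycle of `ζ`: the points whose
`f^[k]`-orbit converges to a point of the cycle without ever being equal to it; `Basin f k ζ` is
the larger set in which the backward orbit of the cycle is kept. `U` is a component of
`PBasin f k ζ` that contains a point `u` and `f^[k] u`, hence is mapped into itself by `f^[k]`.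

If `U` is unbounded, the singular values of `f^[k] : U → U` lie in a compact subset of `U`, and the
boundary of `U` is not contained in the closed postsingular set of `f`, then for every point `z` of
the basin with `f^[m] z ∈ U` for some `m` the component of the basin containing `z` has a boundary
of Hausdorff dimension greater than one, for both versions of the basin.

The Fatou coordinates, the Denjoy-Wolff theorem in the half plane, the reflection principle, the
length-area estimates and the self-similar lower bound are proved in `Pool/Agent/BB` and
`Pool/Agent/BB/P`; proof on paper by helper48, modules written by helpers 2, 19, 20, 21, 38, 45,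
53, 54, 56, 59, 63, 64, 79, 80, 84 and 92.
-/

namespace Pool.Agent.Results.MP_b9540e_an.ParabolicBasins

open Pool.Agent.BB Pool.Agent.BB.P

theorem result (f : ℂ → ℂ) (hf : Differentiable ℂ f) (k : ℕ) (hk : 1 ≤ k) (ζ : ℂ)
    (hζ : f^[k] ζ = ζ) (hd : deriv f^[k] ζ = 1) (hne : ∃ z, f^[k] z ≠ z)
    (u : ℂ) (hu : u ∈ PBasin f k ζ) (hFu : f^[k] u ∈ connectedComponentIn (PBasin f k ζ) u)
    (hunb : ¬ Bornology.IsBounded (connectedComponentIn (PBasin f k ζ) u))
    (hsing : ∃ K ⊆ connectedComponentIn (PBasin f k ζ) u, IsCompact K ∧
      SingVals f^[k] (connectedComponentIn (PBasin f k ζ) u) ∩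
        connectedComponentIn (PBasin f k ζ) u ⊆ K)
    (hpost : ¬ frontier (connectedComponentIn (PBasin f k ζ) u) ⊆ PostSing f) :
    ∀ z ∈ PBasin f k ζ, (∃ m : ℕ, f^[m] z ∈ connectedComponentIn (PBasin f k ζ) u) →
      1 < dimH (frontier (connectedComponentIn (PBasin f k ζ) z)) ∧
        1 < dimH (frontier (connectedComponentIn (Basin f k ζ) z)) := by
  rintro z hz ⟨m, hm⟩
  exact main_parabolic hf hk hζ hd hne hu hFu hunb hsing hpost hz hm

end Pool.Agent.Results.MP_b9540e_an.ParabolicBasins
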