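import Pool.Agent.BB.Final

/-!
# Boundaries of unbounded attracting basins of entire functions

For every entire function `f` and every attracting cycle whose immediate component `U` at `ζ` is
unbounded, whose first return map `f^k` on `U` has its singular values (as a self-map of `U`) in a
compact subset of `U`, and for which the boundary of `U` is not contained in the closed postsingular
set of `f`, the boundary of every component of the basin has Hausdorff dimension greater than one.

The classical tools (Koebe, Riemann mapping, square roots on domains with holomorphically convex
hulls, path lifting, self-similar lower bound, length-area estimate) are proved in `Pool/Agent/BB`,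
written together with helper91, helper56, helper71 and helper76.
-/

namespace Pool.Agent.Results.MP_b9540e_an.UnboundedBasins

open Pool.Agent.BB

theorem result (f : ℂ → ℂ) (hf : Differentiable ℂ f) (k : ℕ) (hk : 1 ≤ k) (ζ : ℂ)
    (hζ : f^[k] ζ = ζ) (hattr : ‖deriv f^[k] ζ‖ < 1)
    (hunb : ¬ Bornology.IsBounded (connectedComponentIn (Basin f k ζ) ζ))
    (hsing : ∃ K ⊆ connectedComponentIn (Basin f k ζ) ζ, IsCompact K ∧
      SingVals f^[k] (connectedComponentIn (Basin f k ζ) ζ) ∩
        connectedComponentIn (Basin f k ζ) ζ ⊆ K)
    (hpost : ¬ frontier (connectedComponentIn (Basin f k ζ) ζ) ⊆ PostSing f) :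
    ∀ z ∈ Basin f k ζ, 1 < dimH (frontier (connectedComponentIn (Basin f k ζ) z)) :=
  fun _ hz => main hf hk hζ hattr hunb hsing hpost hz

end Pool.Agent.Results.MP_b9540e_an.UnboundedBasins
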